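import Pool.Agent.helper24.IC.Spec

set_option autoImplicit false

namespace Pool.Agent.IC

universe u

/-- the action of a matrix on vectors -/
def OPN_act {R : Type u} [Ring R] {M : Type u} [AddCommGroup M] [Module R M] {a b : ℕ}
    (A : Matrix (Fin a) (Fin b) R) (x : Fin b → M) : Fin a → M := fun i => ∑ j, A i j • x j

theorem OPN_mul {R : Type u} [Ring R] {M : Type u} [AddCommGroup M] [Module R M] {a b c : ℕ}
    (A : Matrix (Fin a) (Fin b) R) (B : Matrix (Fin b) (Fin c) R) (x : Fin c → M) :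
    OPN_act (A * B) x = OPN_act A (OPN_act B x) := by
  funext i
  unfold OPN_act
  simp only [Matrix.mul_apply, Finset.sum_smul, Finset.smul_sum, mul_smul]
  exact Finset.sum_comm

theorem OPN_sub {R : Type u} [Ring R] {M : Type u} [AddCommGroup M] [Module R M] {a b : ℕ}
    (A B : Matrix (Fin a) (Fin b) R) (x : Fin b → M) :
    OPN_act (A - B) x = OPN_act A x - OPN_act B x := by
  funext i
  unfold OPN_act
  simp only [Matrix.sub_apply, sub_smul, Finset.sum_sub_distrib, Pi.sub_apply]

theorem OPN_one {R : Type u} [Ring R] {M : Type u} [AddCommGroup M] [Module R M] {b : ℕ}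
    (x : Fin b → M) : OPN_act (1 : Matrix (Fin b) (Fin b) R) x = x := by
  funext i
  unfold OPN_act
  rw [Finset.sum_eq_single i]
  · rw [Matrix.one_apply_eq, one_smul]
  · intro j _ hj
    rw [Matrix.one_apply_ne hj.symm, zero_smul]
  · intro h
    exact absurd (Finset.mem_univ i) h

theorem OPN_zero {R : Type u} [Ring R] {M : Type u} [AddCommGroup M] [Module R M] {a b : ℕ}
    (A : Matrix (Fin a) (Fin b) R) : OPN_act A (0 : Fin b → M) = 0 := by
  funext i
  unfold OPN_act
  simp

theorem OPN (hELI : ELI_stmt.{u}) (hQIM : QIM_stmt.{u}) : OPN_stmt.{u} := by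
  intro R _ hR n φ ψ
  obtain ⟨k1, G, hG⟩ := hELI R hR n φ
  obtain ⟨k2, G', hG'⟩ := hELI R hR n ψ
  obtain ⟨C, hC⟩ := hQIM R hR k1 n G
  refine ⟨k2, G' * (1 - C * G), ?_⟩
  intro M _ _
  have e1 : ∀ x : Fin n → M, x ∈ φ.sol M ↔ OPN_act G x = 0 := by
    intro x
    rw [hG M x]
    exact ⟨fun h => funext h, fun h i => congrFun h i⟩
  have e2 : ∀ x : Fin n → M, x ∈ ψ.sol M ↔ OPN_act G' x = 0 := by
    intro x
    rw [hG' M x]
    exact ⟨fun h => funext h, fun h i => congrFun h i⟩
  have e3 : ∀ x : Fin n → M, OPN_act G (OPN_act (1 - C * G) x) = 0 := by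
    intro x
    rw [← OPN_mul, Matrix.mul_sub, Matrix.mul_one, ← Matrix.mul_assoc, hC, sub_self]
    funext i
    unfold OPN_act
    simp
  constructor
  · intro h i j x
    have h1 : OPN_act (1 - C * G) (Pi.single j x) ∈ φ.sol M := (e1 _).2 (e3 _)
    have h2 := (e2 _).1 (h h1)
    rw [← OPN_mul] at h2
    have h3 := congrFun h2 i
    unfold OPN_act at h3
    rw [Finset.sum_eq_single j] at h3
    · simpa using h3
    · intro l _ hl
      rw [Pi.single_eq_of_ne hl, smul_zero]
    · intro hj
      exact absurd (Finset.mem_univ j) hj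
  · intro h x hx
    rw [e1] at hx
    rw [e2]
    have h1 : OPN_act (1 - C * G) x = x := by
      rw [OPN_sub, OPN_one, OPN_mul, hx, OPN_zero, sub_zero]
    rw [← h1, ← OPN_mul]
    funext i
    unfold OPN_act
    exact Finset.sum_eq_zero fun j _ => h i j (x j)

end Pool.Agent.IC
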